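import Pool.Agent.HSixP1.Core

/-!
# `7/10 ≤ x ≤ 9/10`, all `k ≥ 8`: the pointwise bound
-/

set_option autoImplicit false

namespace Pool.Agent.HSixP1

open Set Polynomial Pool.Agent.HStar

theorem DDk_pos {k j : ℕ} (hk : 8 ≤ k) (hj : j ≤ k) {s : ℝ} (h0 : 1 / 10 ≤ s) (h1 : s ≤ 3 / 10) :
    0 < DDk k s j := by
  have hk' : (8:ℝ) ≤ k := by exact_mod_cast hk
  have hj' : (j:ℝ) ≤ k := by exact_mod_cast hj
  unfold DDk
  have h2 : 0 ≤ ((k:ℝ) - j) * (2 - 2 * s) := mul_nonneg (by linarith) (by linarith)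
  have h3 : (2 * (k:ℝ) + 1) * (1 / 10) ≤ (2 * k + 1) * s :=
    mul_le_mul_of_nonneg_left h0 (by linarith)
  nlinarith

theorem of_SQ {k j : ℕ} {s ρ : ℝ} (hj : j + 2 ≤ k)
    (h : SQ ρ ((j:ℝ) + 2) ((k:ℝ) - ((j:ℝ) + 2)) s) :
    ((k:ℝ) - j - 1) * (s + 2 * (j + 2) / (k + j + 4)) ≤ ρ * DDk k s (j + 2) := by
  have hp : (0:ℝ) < (k:ℝ) + j + 4 := by positivity
  unfold SQ at h
  have e1 : 2 * ((j:ℝ) + 2) + (k - (j + 2)) + 2 = k + j + 4 := by ring
  have e2 : ((k:ℝ) - ((j:ℝ) + 2)) + 1 = k - j - 1 := by ring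
  have e3 : 2 * ((k:ℝ) - ((j:ℝ) + 2)) - 3 / 2 + (2 * ((j:ℝ) + 2) + 1) * s = DDk k s (j + 2) := by
    unfold DDk; push_cast; ring
  rw [e1, e2, e3] at h
  have e4 : ((k:ℝ) - j - 1) * (s + 2 * (j + 2) / (k + j + 4)) =
      ((k:ℝ) - j - 1) * (s * (k + j + 4) + 2 * (j + 2)) / (k + j + 4) := by
    field_simp
  rw [e4, div_le_iff₀ hp]
  linarith

/-- `r_2`. -/
noncomputable def r2 (k : ℕ) (s : ℝ) : ℝ :=
  ((k:ℝ) - 1) * (s + 4 / (k + 4)) / (2 * k - 11 / 2 + 5 * s)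

theorem r2_nonneg {k : ℕ} (hk : 8 ≤ k) {s : ℝ} (h0 : 1 / 10 ≤ s) : 0 ≤ r2 k s := by
  have hk' : (8:ℝ) ≤ k := by exact_mod_cast hk
  unfold r2
  apply div_nonneg
  · apply mul_nonneg (by linarith)
    positivity
  · linarith

theorem fin_of_FQ {k : ℕ} (hk : 8 ≤ k) {s W : ℝ} (h0 : 1 / 10 ≤ s) (h : FQ W k s) :
    k * (s + 2 / (k + 3)) * (1 + r2 k s * W) ≤ (k:ℝ) - 3 / 4 + s := by
  have hk' : (8:ℝ) ≤ k := by exact_mod_cast hk
  unfold FQ at h
  unfold r2
  have p1 : (0:ℝ) < (k:ℝ) + 3 := by linarith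
  have p2 : (0:ℝ) < (k:ℝ) + 4 := by linarith
  have p3 : (0:ℝ) < 2 * (k:ℝ) - 11 / 2 + 5 * s := by linarith
  obtain ⟨D, hD⟩ : ∃ D, D = 2 * (k:ℝ) - 11 / 2 + 5 * s := ⟨_, rfl⟩
  rw [← hD] at h p3 ⊢
  have e : (k:ℝ) * (s + 2 / (k + 3)) * (1 + ((k:ℝ) - 1) * (s + 4 / (k + 4)) / D * W) =
      (k:ℝ) * ((k + 3) * s + 2) * ((k + 4) * D +
        W * (k - 1) * ((k + 4) * s + 4)) / ((k + 3) * (k + 4) * D) := by
    field_simp
  rw [e, div_le_iff₀ (by positivity)]
  linarith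

/-- The step of the chain with `ρ = (j+2)/D`. -/
theorem step_D {k j : ℕ} {s c : ℝ} (hs : 0 ≤ s) (hj : j + 2 ≤ k) (hD : 0 < DDk k s (j + 2))
    (h : ((k:ℝ) - j - 1) * (s + 2 * (j + 2) / (k + j + 4)) ≤ c * DDk k s (j + 2)) :
    bb1 k s (j + 2) * (((j + 2 : ℕ) : ℝ) / DDk k s (j + 2)) ≤ c * bb1 k s (j + 1) := by
  have h1 := bb1_succ (k := k) hs hj
  have h2 := mul_le_mul_of_nonneg_right h (bb1_nonneg k hs (j + 1))
  rw [mul_div_assoc', div_le_iff₀ hD]
  push_cast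
  linarith

theorem step_zero {k : ℕ} {s : ℝ} (hk : 8 ≤ k) (hs : 0 ≤ s) (hD : 0 < DDk k s 2) :
    bb1 k s 2 * (((2 : ℕ) : ℝ) / DDk k s 2) ≤ r2 k s * bb1 k s 1 := by
  have h := step_D (k := k) (j := 0) (c := r2 k s) hs (by omega) hD (by
    unfold r2
    have e : DDk k s (0 + 2) = 2 * k - 11 / 2 + 5 * s := by unfold DDk; push_cast; ring
    rw [e]
    have hp : 2 * (k:ℝ) - 11 / 2 + 5 * s ≠ 0 := by
      have e' : DDk k s 2 = 2 * k - 11 / 2 + 5 * s := by unfold DDk; push_cast; ring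
      rw [← e']; exact hD.ne'
    rw [div_mul_cancel₀ _ hp]
    apply le_of_eq
    push_cast
    ring)
  exact h

/-- Intervals where one ratio is enough. -/
theorem case_one {N k : ℕ} (hk : 8 ≤ k) (hkN : k + 1 ≤ N) {L : Fin N → ℂ} (hL : ∀ a, ‖L a‖ ≤ 1)
    {s : ℝ} (h0 : 1 / 10 ≤ s) (h1 : s ≤ 3 / 10) (htp : (k:ℝ) + 1 / 4 ≤ ∑ a, (1 - (L a).re))
    (htm : (k:ℝ) - 2 ≤ ∑ a, (1 + (L a).re)) {c Wb : ℝ} (hWb : 1 ≤ Wb) (hcW : 1 + c * Wb ≤ Wb)
    (hSQ : ∀ j m : ℝ, 3 ≤ j → 0 ≤ m → 8 ≤ j + m → SQ c j m s) (hFQ : FQ Wb k s) :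
    PW L k (1 - s) := by
  have hs : 0 ≤ s := by linarith
  have hr2 := r2_nonneg hk h0
  refine core hk hkN hL h0 h1 htp htm
    (ρ := fun j => if j ≤ k then (j:ℝ) / DDk k s j else 0)
    (r := fun j => if j = 0 then r2 k s else c)
    (W := fun j => if j = 0 then 1 + r2 k s * Wb else Wb) ?_ ?_ ?_ ?_ ?_ ?_ ?_
  · intro j
    split_ifs with h
    · exact div_nonneg (Nat.cast_nonneg j) (DDk_pos hk h h0 h1).le
    · exact le_rfl
  · intro j _ hjk
    left
    rw [if_pos hjk, div_mul_cancel₀ _ (DDk_pos hk hjk h0 h1).ne']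
  · intro j
    split_ifs
    · positivity
    · linarith
  · intro j hj
    rw [if_pos (by omega : j + 2 ≤ k)]
    rcases Nat.eq_zero_or_pos j with rfl | hj0
    · rw [if_pos rfl]
      exact step_zero hk hs (DDk_pos hk (by omega) h0 h1)
    · rw [if_neg (by omega)]
      refine step_D hs (by omega) (DDk_pos hk (by omega) h0 h1) (of_SQ (by omega) ?_)
      have h2 : (1:ℝ) ≤ j := by exact_mod_cast hj0
      have h3 : ((j + 2 : ℕ) : ℝ) ≤ k := by exact_mod_cast (by omega : j + 2 ≤ k)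
      push_cast at h3
      have hk' : (8:ℝ) ≤ k := by exact_mod_cast hk
      exact hSQ _ _ (by linarith) (by linarith) (by linarith)
  · intro j hj
    rw [if_neg (Nat.succ_ne_zero j)]
    split_ifs
    · exact le_rfl
    · exact hcW
  · rw [if_neg (by omega)]
    exact hWb
  · rw [if_pos rfl]
    exact fin_of_FQ hk h0 hFQ

/-- `1/10 ≤ s ≤ 1/5`. -/
theorem case_two {N k : ℕ} (hk : 8 ≤ k) (hkN : k + 1 ≤ N) {L : Fin N → ℂ} (hL : ∀ a, ‖L a‖ ≤ 1)
    {s : ℝ} (h0 : 1 / 10 ≤ s) (h1 : s ≤ 1 / 5) (htp : (k:ℝ) + 1 / 4 ≤ ∑ a, (1 - (L a).re))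
    (htm : (k:ℝ) - 2 ≤ ∑ a, (1 + (L a).re)) :
    PW L k (1 - s) := by
  have hs : 0 ≤ s := by linarith
  have hspos : 0 < s := by linarith
  have h1' : s ≤ 3 / 10 := by linarith
  have hr2 := r2_nonneg hk h0
  have hk' : (8:ℝ) ≤ k := by exact_mod_cast hk
  refine core hk hkN hL h0 h1' htp htm
    (ρ := fun j => if j < k then (j:ℝ) / DDk k s j else if j = k then 1 / s else 0)
    (r := fun j => if j = 0 then r2 k s else if j + 2 = k then 7 / 5 else
      if j + 3 = k then 19 / 20 else 7 / 10)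
    (W := fun j => if j = 0 then 1 + r2 k s * (10 / 3) else if j + 1 = k then 1 else
      if j + 2 = k then 12 / 5 else 10 / 3) ?_ ?_ ?_ ?_ ?_ ?_ ?_
  · intro j
    split_ifs with h
    · exact div_nonneg (Nat.cast_nonneg j) (DDk_pos hk h.le h0 h1').le
    · positivity
    · exact le_rfl
  · intro j _ hjk
    rcases hjk.lt_or_eq with h | h
    · left
      rw [if_pos h, div_mul_cancel₀ _ (DDk_pos hk hjk h0 h1').ne']
    · right
      rw [if_neg (by omega), if_pos h, one_div, inv_mul_cancel₀ hspos.ne']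
  · intro j
    split_ifs <;> first | positivity | norm_num
  · intro j hj
    rcases Nat.eq_zero_or_pos j with rfl | hj0
    · rw [if_pos (by omega : 0 + 2 < k), if_pos rfl]
      exact step_zero hk hs (DDk_pos hk (by omega) h0 h1')
    · rw [if_neg (by omega : ¬ j = 0)]
      have h2 : (1:ℝ) ≤ j := by exact_mod_cast hj0
      rcases eq_or_ne (j + 2) k with h | h
      · rw [if_neg (by omega : ¬ j + 2 < k), if_pos h, if_pos h]
        have h3 := bb1_succ (k := k) (j := j) hs (by omega)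
        have hjk : (j:ℝ) + 2 = k := by
          have : ((j + 2 : ℕ) : ℝ) = k := by exact_mod_cast h
          push_cast at this; exact this
        have hb := bb1_nonneg k hs (j + 1)
        have e1 : (k:ℝ) - j - 1 = 1 := by linarith
        have e2 : (k:ℝ) + j + 4 = 2 * k + 2 := by linarith
        rw [e1, e2, hjk, one_mul] at h3
        -- (s + 2k/(2k+2)) ≤ 7/5 k s
        have h4 : s + 2 * (k:ℝ) / (2 * k + 2) ≤ 7 / 5 * k * s := by
          have h5 : 2 * (k:ℝ) / (2 * k + 2) ≤ 1 := by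
            rw [div_le_one (by linarith)]; linarith
          nlinarith
        have h6 := mul_le_mul_of_nonneg_right h4 hb
        rw [mul_one_div, div_le_iff₀ hspos]
        have h7 : (k:ℝ) * bb1 k s (j + 2) ≤ k * (7 / 5 * bb1 k s (j + 1) * s) := by linarith
        exact le_of_mul_le_mul_left h7 (by linarith)
      · have hlt : j + 2 < k := by omega
        rw [if_pos hlt, if_neg h]
        have hlt' : ((j + 2 : ℕ) : ℝ) + 1 ≤ k := by exact_mod_cast hlt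
        push_cast at hlt'
        rcases eq_or_ne (j + 3) k with h3 | h3
        · rw [if_pos h3]
          refine step_D hs (by omega) (DDk_pos hk (by omega) h0 h1') (of_SQ (by omega) ?_)
          have hjk : (k:ℝ) - ((j:ℝ) + 2) = 1 := by
            have : ((j + 3 : ℕ) : ℝ) = k := by exact_mod_cast h3
            push_cast at this; linarith
          rw [hjk]
          exact SQ_convex (SQ_g (by linarith)) (SQ_h (by linarith)) h0 h1
        · rw [if_neg h3]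
          refine step_D hs (by omega) (DDk_pos hk (by omega) h0 h1') (of_SQ (by omega) ?_)
          have h4 : ((j + 4 : ℕ) : ℝ) ≤ k := by exact_mod_cast (by omega : j + 4 ≤ k)
          push_cast at h4
          exact SQ_convex (SQ_e (by linarith) (by linarith) (by linarith))
            (SQ_f (by linarith) (by linarith) (by linarith)) h0 h1
  · intro j hj
    rw [if_neg (Nat.succ_ne_zero j)]
    rcases Nat.eq_zero_or_pos j with rfl | hj0
    · rw [if_pos rfl, if_pos rfl, if_neg (by omega), if_neg (by omega)]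
    · rw [if_neg (by omega : ¬ j = 0), if_neg (by omega : ¬ j = 0),
        if_neg (by omega : ¬ j + 1 = k)]
      rcases eq_or_ne (j + 2) k with h | h
      · rw [if_pos h, if_pos (by omega : j + 1 + 1 = k), if_pos h]
        norm_num
      · rw [if_neg h, if_neg (by omega : ¬ j + 1 + 1 = k), if_neg h]
        rcases eq_or_ne (j + 3) k with h3 | h3
        · rw [if_pos h3, if_pos (by omega : j + 1 + 2 = k)]
          norm_num
        · rw [if_neg h3, if_neg (by omega : ¬ j + 1 + 2 = k)]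
          norm_num
  · rw [if_neg (by omega), if_pos (by omega)]
  · rw [if_pos rfl]
    exact fin_of_FQ hk h0 (FQ_3 hk' h0 h1)

/-- **`7/10 ≤ x ≤ 9/10`, all `k ≥ 8`.** -/
theorem pw_P1a {N k : ℕ} (hk : 8 ≤ k) (hkN : k + 1 ≤ N) {L : Fin N → ℂ} (hL : ∀ a, ‖L a‖ ≤ 1)
    {x : ℝ} (h0 : 7 / 10 ≤ x) (h1 : x ≤ 9 / 10) (htp : (k:ℝ) + 1 / 4 ≤ ∑ a, (1 - (L a).re))
    (htm : (k:ℝ) - 2 ≤ ∑ a, (1 + (L a).re)) : PW L k x := by
  obtain ⟨s, rfl⟩ : ∃ s, x = 1 - s := ⟨1 - x, by ring⟩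
  have hs0 : 1 / 10 ≤ s := by linarith
  have hs1 : s ≤ 3 / 10 := by linarith
  have hk' : (8:ℝ) ≤ k := by exact_mod_cast hk
  rcases le_total s (1 / 5) with h | h
  · exact case_two hk hkN hL hs0 h htp htm
  rcases le_total s (1 / 4) with h2 | h2
  · exact case_one hk hkN hL hs0 hs1 htp htm (c := 3 / 5) (Wb := 5 / 2) (by norm_num)
      (by norm_num) (fun j m h3 h4 h5 => SQ_convex (SQ_c h3 h4 h5) (SQ_d h3 h4 h5) h h2)
      (FQ_2 hk' h h2)
  · exact case_one hk hkN hL hs0 hs1 htp htm (c := 8 / 15) (Wb := 15 / 7) (by norm_num)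
      (by norm_num) (fun j m h3 h4 h5 => SQ_convex (SQ_a h3 h4 h5) (SQ_b h3 h4 h5) h2 hs1)
      (FQ_1 hk' h2 hs1)

end Pool.Agent.HSixP1
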