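import Pool.Agent.HFin.Ends

/-!
# The Taylor bound at the end point `1`, normalised

`gam d l = 2^l / C(d+l, l)`, `tt d s j = ∑_i C(j,i) s^i gam d (j-i)`; then
`|H_{k-j} ω(x)| ≤ C(k,j) tt (2N-k) (1-x) j · M`.
-/

set_option autoImplicit false

namespace Pool.Agent.HSixP1

open Set Polynomial Pool.Agent.HStar Pool.Agent.HFin

/-- `2^l / C(d+l, l)`. -/
noncomputable def gam (d l : ℕ) : ℝ := 2 ^ l / ((d + l).choose l : ℕ)

/-- The normalised Taylor bound. -/
noncomputable def tt (d : ℕ) (s : ℝ) (j : ℕ) : ℝ :=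
  ∑ i ∈ Finset.range (j + 1), (j.choose i : ℕ) * s ^ i * gam d (j - i)

theorem choose_pos' (d l : ℕ) : (0:ℝ) < ((d + l).choose l : ℕ) := by
  exact_mod_cast Nat.choose_pos (Nat.le_add_left l d)

theorem gam_nonneg (d l : ℕ) : 0 ≤ gam d l := by
  unfold gam
  have := choose_pos' d l
  positivity

theorem gam_pos (d l : ℕ) : 0 < gam d l := by
  unfold gam
  have := choose_pos' d l
  positivity

theorem gam_zero (d : ℕ) : gam d 0 = 1 := by
  unfold gam
  simp

theorem gam_succ (d l : ℕ) : ((d:ℝ) + l + 1) * gam d (l + 1) = 2 * (l + 1) * gam d l := by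
  have h1 := choose_pos' d l
  have h2 := choose_pos' d (l + 1)
  have h3 : (((d + (l + 1)).choose (l + 1) : ℕ) : ℝ) * (l + 1) =
      ((d:ℝ) + l + 1) * ((d + l).choose l : ℕ) := by
    have h := Nat.add_one_mul_choose_eq (d + l) l
    have e : d + (l + 1) = d + l + 1 := by ring
    rw [e]
    have h' : (((d + l + 1) * (d + l).choose l : ℕ) : ℝ) =
        (((d + l + 1).choose (l + 1) * (l + 1) : ℕ) : ℝ) := by rw [h]
    push_cast at h'
    linarith
  unfold gam
  rw [mul_div_assoc', mul_div_assoc', div_eq_div_iff h2.ne' h1.ne', pow_succ]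
  linear_combination (-2 * (2:ℝ) ^ l) * h3

theorem gam_anti {d d' : ℕ} (h : d ≤ d') (l : ℕ) : gam d' l ≤ gam d l := by
  unfold gam
  have h1 := choose_pos' d l
  have h2 : (((d + l).choose l : ℕ) : ℝ) ≤ ((d' + l).choose l : ℕ) := by
    exact_mod_cast Nat.choose_le_choose l (by omega)
  exact div_le_div_of_nonneg_left (by positivity) h1 h2

theorem tt_nonneg (d : ℕ) {s : ℝ} (hs : 0 ≤ s) (j : ℕ) : 0 ≤ tt d s j := by
  unfold tt
  refine Finset.sum_nonneg fun i _ => ?_
  have := gam_nonneg d (j - i)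
  positivity

theorem tt_zero (d : ℕ) (s : ℝ) : tt d s 0 = 1 := by
  unfold tt
  simp [gam_zero]

theorem tt_anti {d d' : ℕ} (h : d ≤ d') {s : ℝ} (hs : 0 ≤ s) (j : ℕ) : tt d' s j ≤ tt d s j := by
  unfold tt
  refine Finset.sum_le_sum fun i _ => ?_
  exact mul_le_mul_of_nonneg_left (gam_anti h _) (by positivity)

theorem tt_mono (d : ℕ) {s s' : ℝ} (hs : 0 ≤ s) (h : s ≤ s') (j : ℕ) : tt d s j ≤ tt d s' j := by
  unfold tt
  refine Finset.sum_le_sum fun i _ => ?_
  refine mul_le_mul_of_nonneg_right ?_ (gam_nonneg _ _)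
  exact mul_le_mul_of_nonneg_left (pow_le_pow_left₀ hs h i) (by positivity)

theorem pow_le_tt (d : ℕ) {s : ℝ} (hs : 0 ≤ s) (j : ℕ) : s ^ j ≤ tt d s j := by
  unfold tt
  rw [Finset.sum_range_succ]
  have h1 : 0 ≤ ∑ i ∈ Finset.range j, (j.choose i : ℕ) * s ^ i * gam d (j - i) := by
    refine Finset.sum_nonneg fun i _ => ?_
    have := gam_nonneg d (j - i)
    positivity
  rw [Nat.choose_self, Nat.sub_self, gam_zero]
  push_cast
  linarith

/-- The recurrence. -/
theorem tt_succ (d : ℕ) (s : ℝ) (j : ℕ) :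
    ((d:ℝ) + j + 1) * tt d s (j + 1) = d * s ^ (j + 1) + (j + 1) * (s + 2) * tt d s j := by
  -- split `(d+j+1) = (d + (j+1-i)) + i`
  have e1 : ((d:ℝ) + j + 1) * tt d s (j + 1) =
      ∑ i ∈ Finset.range (j + 2), ((j + 1).choose i : ℕ) * s ^ i *
        ((((d:ℝ) + j + 1) - i) * gam d (j + 1 - i)) +
      ∑ i ∈ Finset.range (j + 2), ((j + 1).choose i : ℕ) * s ^ i * (i * gam d (j + 1 - i)) := by
    unfold tt
    rw [Finset.mul_sum, ← Finset.sum_add_distrib]
    refine Finset.sum_congr rfl fun i _ => ?_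
    ring
  have e2 : ∑ i ∈ Finset.range (j + 2), (((j + 1).choose i : ℕ) : ℝ) * s ^ i *
        ((((d:ℝ) + j + 1) - i) * gam d (j + 1 - i)) =
      d * s ^ (j + 1) + 2 * (j + 1) * tt d s j := by
    rw [Finset.sum_range_succ]
    have h1 : ∑ i ∈ Finset.range (j + 1), (((j + 1).choose i : ℕ) : ℝ) * s ^ i *
        ((((d:ℝ) + j + 1) - i) * gam d (j + 1 - i)) = 2 * (j + 1) * tt d s j := by
      unfold tt
      rw [Finset.mul_sum]
      refine Finset.sum_congr rfl fun i hi => ?_
      have hij : i ≤ j := Nat.lt_succ_iff.1 (Finset.mem_range.1 hi)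
      obtain ⟨l, rfl⟩ : ∃ l, j = i + l := ⟨j - i, by omega⟩
      have e3 : i + l + 1 - i = l + 1 := by omega
      have e4 : i + l - i = l := by omega
      rw [e3, e4]
      have h2 := gam_succ d l
      have h3 : (((i + l + 1).choose i : ℕ) : ℝ) * (l + 1) = (i + l + 1) * ((i + l).choose i : ℕ) := by
        have h := Nat.choose_mul_succ_eq (i + l) i
        have e5 : i + l + 1 - i = l + 1 := by omega
        rw [e5] at h
        have h' : (((i + l).choose i * (i + l + 1) : ℕ) : ℝ) =
            (((i + l + 1).choose i * (l + 1) : ℕ) : ℝ) := by rw [h]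
        push_cast at h'
        linarith
      have e6 : ((d:ℝ) + ((i + l : ℕ) : ℝ) + 1) - i = d + l + 1 := by push_cast; ring
      rw [e6, h2]
      push_cast
      linear_combination (2 * s ^ i * gam d l) * h3
    rw [h1, Nat.choose_self, Nat.sub_self, gam_zero]
    push_cast
    ring
  have e3 : ∑ i ∈ Finset.range (j + 2), (((j + 1).choose i : ℕ) : ℝ) * s ^ i *
      (i * gam d (j + 1 - i)) = (j + 1) * s * tt d s j := by
    rw [Finset.sum_range_succ']
    unfold tt
    simp only [Nat.cast_zero, zero_mul, mul_zero, add_zero]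
    rw [Finset.mul_sum]
    refine Finset.sum_congr rfl fun i _ => ?_
    have e4 : j + 1 - (i + 1) = j - i := by omega
    rw [e4]
    have h3 : (((j + 1).choose (i + 1) : ℕ) : ℝ) * (i + 1) = (j + 1) * (j.choose i : ℕ) := by
      have h := Nat.add_one_mul_choose_eq j i
      have h' : (((j + 1) * j.choose i : ℕ) : ℝ) =
          (((j + 1).choose (i + 1) * (i + 1) : ℕ) : ℝ) := by rw [h]
      push_cast at h'
      linarith
    push_cast
    rw [pow_succ]
    linear_combination (s ^ i * s * gam d (j - i)) * h3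
  rw [e1, e2, e3]
  ring

/-- One step. -/
theorem tt_step (d : ℕ) {s : ℝ} (hs : 0 ≤ s) (j : ℕ) :
    tt d s (j + 1) ≤ (s + 2 * (j + 1) / (d + j + 1)) * tt d s j := by
  have hd : (0:ℝ) < (d:ℝ) + j + 1 := by positivity
  have h1 := tt_succ d s j
  have h2 := pow_le_tt d hs j
  have h3 : (d:ℝ) * s ^ (j + 1) ≤ d * (s * tt d s j) := by
    rw [pow_succ]
    apply mul_le_mul_of_nonneg_left _ (Nat.cast_nonneg d)
    rw [mul_comm s]
    exact mul_le_mul_of_nonneg_right h2 hs
  have h4 : (s + 2 * ((j:ℝ) + 1) / (d + j + 1)) * tt d s j =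
      (((d:ℝ) + j + 1) * s + 2 * (j + 1)) * tt d s j / (d + j + 1) := by
    field_simp
  rw [h4, le_div_iff₀ hd, mul_comm, h1]
  linarith

/-- T1: the Taylor bound at the end point `1`. -/
theorem T1 {N k : ℕ} {L : Fin N → ℂ} (hL : ∀ a, ‖L a‖ ≤ 1) (hk : k ≤ 2 * N) {x M : ℝ}
    (hx0 : -1 ≤ x) (hx1 : x ≤ 1) (hM : IsM L k M) {j : ℕ} (hj : j ≤ k) :
    |(hasseDeriv (k - j) (omR L)).eval x| ≤ (k.choose j : ℕ) * tt (2 * N - k) (1 - x) j * M := by
  have hM0 : 0 ≤ M := (abs_nonneg _).trans (hM x ⟨hx0, hx1⟩)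
  have hs : 0 ≤ 1 - x := by linarith
  set d := 2 * N - k with hd
  have e0 : k - j + j = k := by omega
  have h1 := taylor_abs (hseq_hv L) (y := 1) (a := -1) (b := 1) (M := M) j (k - j) (x := x)
    ⟨by norm_num, le_rfl⟩ ⟨hx0, hx1⟩ (by
      intro t ht
      rw [e0]
      exact hM t ht)
  rw [e0] at h1
  have hxs : |x - 1| = 1 - x := by rw [abs_sub_comm, abs_of_nonneg hs]
  rw [hxs] at h1
  have h2 : |tay (hv L) 1 (k - j) j x| ≤
      (k.choose j : ℕ) * (∑ i ∈ Finset.range j, (j.choose i : ℕ) * (1 - x) ^ i * gam d (j - i)) *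
        M := by
    unfold tay
    refine (Finset.abs_sum_le_sum_abs _ _).trans ?_
    rw [Finset.mul_sum, Finset.sum_mul]
    refine Finset.sum_le_sum fun i hi => ?_
    have hij : i < j := Finset.mem_range.1 hi
    rw [abs_mul, abs_mul, abs_pow, hxs, Nat.abs_cast]
    obtain ⟨l, rfl⟩ : ∃ l, j = i + l := ⟨j - i, by omega⟩
    have e1 : k - (i + l) + i = k - l := by omega
    have e2 : i + l - i = l := by omega
    rw [e1, e2]
    have h3 := hv_end hL (i := k - l) (k := k) (by omega) hk (t := 1) (by simp)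
    have e3 : k - (k - l) = l := by omega
    rw [e3] at h3
    have h4 : |hv L k 1| ≤ M := hM 1 ⟨by norm_num, le_rfl⟩
    -- the binomial identity
    have hb : (((k - l).choose i * (2 * N).choose (k - l) * (d + l).choose l : ℕ) : ℝ) =
        (((2 * N).choose k * (k.choose (i + l) * (i + l).choose l) : ℕ) : ℝ) := by
      have b1 := Nat.choose_mul (n := 2 * N) (k := k) (s := k - l) (by omega)
      have e4 : 2 * N - (k - l) = d + l := by omega
      rw [e4, e3] at b1
      have b2 := Nat.choose_mul (n := k) (k := i + l) (s := l) (by omega)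
      have e5 : i + l - l = i := by omega
      rw [e5] at b2
      have b3 : k.choose (k - l) = k.choose l := Nat.choose_symm (by omega)
      congr 1
      calc (k - l).choose i * (2 * N).choose (k - l) * (d + l).choose l
          = (k - l).choose i * ((2 * N).choose (k - l) * (d + l).choose l) := by ring
        _ = (k - l).choose i * ((2 * N).choose k * k.choose l) := by rw [← b1, b3]
        _ = (2 * N).choose k * (k.choose l * (k - l).choose i) := by ring
        _ = _ := by rw [b2]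
    have hA : (0:ℝ) < ((2 * N).choose k : ℕ) := by exact_mod_cast Nat.choose_pos hk
    have hC := choose_pos' d l
    have hsym : (i + l).choose l = (i + l).choose i := by
      rw [← Nat.choose_symm (by omega : l ≤ i + l)]
      congr 1
      omega
    rw [hsym] at hb
    push_cast at hb
    -- conclude
    have h5 : ((2 * N).choose k : ℕ) * |hv L (k - l) 1| ≤
        2 ^ l * ((2 * N).choose (k - l) : ℕ) * M := by
      refine h3.trans (mul_le_mul_of_nonneg_left h4 (by positivity))
    have h6 : (((k - l).choose i : ℕ) : ℝ) * |hv L (k - l) 1| ≤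
        (k.choose (i + l) : ℕ) * ((i + l).choose i : ℕ) * gam d l * M := by
      unfold gam
      have h7 : ((2 * N).choose k : ℕ) * ((((k - l).choose i : ℕ) : ℝ) * |hv L (k - l) 1|) ≤
          ((2 * N).choose k : ℕ) * ((k.choose (i + l) : ℕ) * ((i + l).choose i : ℕ) *
            (2 ^ l / ((d + l).choose l : ℕ)) * M) := by
        have h8 : (((2 * N).choose k : ℕ) : ℝ) * ((k.choose (i + l) : ℕ) * ((i + l).choose i : ℕ) *
            (2 ^ l / ((d + l).choose l : ℕ)) * M) =
            ((k - l).choose i : ℕ) * (2 ^ l * ((2 * N).choose (k - l) : ℕ) * M) := by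
          have e7 : (((2 * N).choose k : ℕ) : ℝ) * ((k.choose (i + l) : ℕ) *
              ((i + l).choose i : ℕ) * (2 ^ l / ((d + l).choose l : ℕ)) * M) =
              (((2 * N).choose k : ℕ) * ((k.choose (i + l) : ℕ) * ((i + l).choose i : ℕ)) *
                2 ^ l * M) / ((d + l).choose l : ℕ) := by ring
          rw [e7, div_eq_iff hC.ne']
          linear_combination (-(2:ℝ) ^ l * M) * hb
        rw [h8]
        have h9 := mul_le_mul_of_nonneg_left h5 (Nat.cast_nonneg ((k - l).choose i) : (0:ℝ) ≤ _)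
        calc _ = (((k - l).choose i : ℕ) : ℝ) * (((2 * N).choose k : ℕ) * |hv L (k - l) 1|) := by
              ring
          _ ≤ _ := h9
      exact le_of_mul_le_mul_left h7 hA
    have h10 : 0 ≤ (1 - x) ^ i := by positivity
    calc (((k - l).choose i : ℕ) : ℝ) * (1 - x) ^ i * |hv L (k - l) 1|
        = ((((k - l).choose i : ℕ) : ℝ) * |hv L (k - l) 1|) * (1 - x) ^ i := by ring
      _ ≤ ((k.choose (i + l) : ℕ) * ((i + l).choose i : ℕ) * gam d l * M) * (1 - x) ^ i :=
        mul_le_mul_of_nonneg_right h6 h10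
      _ = _ := by ring
  have h3 : (hasseDeriv (k - j) (omR L)).eval x = hv L (k - j) x := rfl
  rw [h3]
  have h4 : |hv L (k - j) x| ≤ |hv L (k - j) x - tay (hv L) 1 (k - j) j x| +
      |tay (hv L) 1 (k - j) j x| := by
    have := abs_add_le (hv L (k - j) x - tay (hv L) 1 (k - j) j x) (tay (hv L) 1 (k - j) j x)
    rwa [sub_add_cancel] at this
  refine h4.trans ((add_le_add h1 h2).trans (le_of_eq ?_))
  unfold tt
  rw [Finset.sum_range_succ, Nat.choose_self, Nat.sub_self, gam_zero]
  push_cast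
  ring

end Pool.Agent.HSixP1
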