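import Mathlib

/-!
# The final inequality
-/

set_option autoImplicit false

namespace Pool.Agent.HSixP1

/-- `k t_1 (1 + r_2 W) ≤ k - 3/4 + s`, denominators removed. -/
def FQ (W k s : ℝ) : Prop :=
  k * ((k + 3) * s + 2) * ((k + 4) * (2 * k - 11 / 2 + 5 * s) + W * (k - 1) * ((k + 4) * s + 4)) ≤
    (k - 3 / 4 + s) * (k + 3) * (k + 4) * (2 * k - 11 / 2 + 5 * s)

theorem FQ_1 {k s : ℝ} (hk : 8 ≤ k) (h0 : 1 / 4 ≤ s) (h1 : s ≤ 3 / 10) : FQ (15 / 7) k s := by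
  obtain ⟨u, rfl⟩ : ∃ u, k = 8 + u := ⟨k - 8, by ring⟩
  obtain ⟨t, rfl⟩ : ∃ t, s = 1 / 4 + 1 / 20 * t := ⟨(s - 1 / 4) / (1 / 20), by ring⟩
  have hu : 0 ≤ u := by linarith
  have ht0 : 0 ≤ t := by linarith
  have ht1 : 0 ≤ 1 - t := by linarith
  have h3 : 0 ≤ (4569 / 2 : ℝ) * (1 - t) ^ 4 +
      (158493 / 20 : ℝ) * t ^ 1 * (1 - t) ^ 3 +
      (50079 / 5 : ℝ) * t ^ 2 * (1 - t) ^ 2 +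
      (107913 / 20 : ℝ) * t ^ 3 * (1 - t) ^ 1 +
      (1020 : ℝ) * t ^ 4 +
      (14611 / 8 : ℝ) * u ^ 1 * (1 - t) ^ 4 +
      (3789509 / 560 : ℝ) * u ^ 1 * t ^ 1 * (1 - t) ^ 3 +
      (1305013 / 140 : ℝ) * u ^ 1 * t ^ 2 * (1 - t) ^ 2 +
      (3162657 / 560 : ℝ) * u ^ 1 * t ^ 3 * (1 - t) ^ 1 +
      (44334 / 35 : ℝ) * u ^ 1 * t ^ 4 +
      (6183 / 14 : ℝ) * u ^ 2 * (1 - t) ^ 4 +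
      (940437 / 560 : ℝ) * u ^ 2 * t ^ 1 * (1 - t) ^ 3 +
      (667791 / 280 : ℝ) * u ^ 2 * t ^ 2 * (1 - t) ^ 2 +
      (839133 / 560 : ℝ) * u ^ 2 * t ^ 3 * (1 - t) ^ 1 +
      (49167 / 140 : ℝ) * u ^ 2 * t ^ 4 +
      (4705 / 112 : ℝ) * u ^ 3 * (1 - t) ^ 4 +
      (11337 / 70 : ℝ) * u ^ 3 * t ^ 1 * (1 - t) ^ 3 +
      (130817 / 560 : ℝ) * u ^ 3 * t ^ 2 * (1 - t) ^ 2 +
      (41823 / 280 : ℝ) * u ^ 3 * t ^ 3 * (1 - t) ^ 1 +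
      (250 / 7 : ℝ) * u ^ 3 * t ^ 4 +
      (153 / 112 : ℝ) * u ^ 4 * (1 - t) ^ 4 +
      (1487 / 280 : ℝ) * u ^ 4 * t ^ 1 * (1 - t) ^ 3 +
      (4329 / 560 : ℝ) * u ^ 4 * t ^ 2 * (1 - t) ^ 2 +
      (699 / 140 : ℝ) * u ^ 4 * t ^ 3 * (1 - t) ^ 1 +
      (169 / 140 : ℝ) * u ^ 4 * t ^ 4 := by
    positivity
  unfold FQ
  rw [← sub_nonneg]
  refine h3.trans (le_of_eq ?_)
  ring

theorem FQ_2 {k s : ℝ} (hk : 8 ≤ k) (h0 : 1 / 5 ≤ s) (h1 : s ≤ 1 / 4) : FQ (5 / 2) k s := by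
  obtain ⟨u, rfl⟩ : ∃ u, k = 8 + u := ⟨k - 8, by ring⟩
  obtain ⟨t, rfl⟩ : ∃ t, s = 1 / 5 + 1 / 20 * t := ⟨(s - 1 / 5) / (1 / 20), by ring⟩
  have hu : 0 ≤ u := by linarith
  have ht0 : 0 ≤ t := by linarith
  have ht1 : 0 ≤ 1 - t := by linarith
  have h3 : 0 ≤ (29091 / 10 : ℝ) * (1 - t) ^ 4 +
      (208091 / 20 : ℝ) * t ^ 1 * (1 - t) ^ 3 +
      (137013 / 10 : ℝ) * t ^ 2 * (1 - t) ^ 2 +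
      (156507 / 20 : ℝ) * t ^ 3 * (1 - t) ^ 1 +
      (3239 / 2 : ℝ) * t ^ 4 +
      (86293 / 40 : ℝ) * u ^ 1 * (1 - t) ^ 4 +
      (129369 / 16 : ℝ) * u ^ 1 * t ^ 1 * (1 - t) ^ 3 +
      (225773 / 20 : ℝ) * u ^ 1 * t ^ 2 * (1 - t) ^ 2 +
      (555993 / 80 : ℝ) * u ^ 1 * t ^ 3 * (1 - t) ^ 1 +
      (3179 / 2 : ℝ) * u ^ 1 * t ^ 4 +
      (4031 / 8 : ℝ) * u ^ 2 * (1 - t) ^ 4 +
      (154249 / 80 : ℝ) * u ^ 2 * t ^ 1 * (1 - t) ^ 3 +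
      (441181 / 160 : ℝ) * u ^ 2 * t ^ 2 * (1 - t) ^ 2 +
      (69837 / 40 : ℝ) * u ^ 2 * t ^ 3 * (1 - t) ^ 1 +
      (13209 / 32 : ℝ) * u ^ 2 * t ^ 4 +
      (469 / 10 : ℝ) * u ^ 3 * (1 - t) ^ 4 +
      (7263 / 40 : ℝ) * u ^ 3 * t ^ 1 * (1 - t) ^ 3 +
      (10523 / 40 : ℝ) * u ^ 3 * t ^ 2 * (1 - t) ^ 2 +
      (6761 / 40 : ℝ) * u ^ 3 * t ^ 3 * (1 - t) ^ 1 +
      (325 / 8 : ℝ) * u ^ 3 * t ^ 4 +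
      (3 / 2 : ℝ) * u ^ 4 * (1 - t) ^ 4 +
      (117 / 20 : ℝ) * u ^ 4 * t ^ 1 * (1 - t) ^ 3 +
      (1367 / 160 : ℝ) * u ^ 4 * t ^ 2 * (1 - t) ^ 2 +
      (443 / 80 : ℝ) * u ^ 4 * t ^ 3 * (1 - t) ^ 1 +
      (43 / 32 : ℝ) * u ^ 4 * t ^ 4 := by
    positivity
  unfold FQ
  rw [← sub_nonneg]
  refine h3.trans (le_of_eq ?_)
  ring

theorem FQ_3 {k s : ℝ} (hk : 8 ≤ k) (h0 : 1 / 10 ≤ s) (h1 : s ≤ 1 / 5) : FQ (10 / 3) k s := by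
  obtain ⟨u, rfl⟩ : ∃ u, k = 8 + u := ⟨k - 8, by ring⟩
  obtain ⟨t, rfl⟩ : ∃ t, s = 1 / 10 + 1 / 10 * t := ⟨(s - 1 / 10) / (1 / 10), by ring⟩
  have hu : 0 ≤ u := by linarith
  have ht0 : 0 ≤ t := by linarith
  have ht1 : 0 ≤ 1 - t := by linarith
  have h3 : 0 ≤ (65843 / 15 : ℝ) * (1 - t) ^ 4 +
      (151159 / 10 : ℝ) * t ^ 1 * (1 - t) ^ 3 +
      (187179 / 10 : ℝ) * t ^ 2 * (1 - t) ^ 2 +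
      (289387 / 30 : ℝ) * t ^ 3 * (1 - t) ^ 1 +
      (16547 / 10 : ℝ) * t ^ 4 +
      (174493 / 60 : ℝ) * u ^ 1 * (1 - t) ^ 4 +
      (84565 / 8 : ℝ) * u ^ 1 * t ^ 1 * (1 - t) ^ 3 +
      (1696679 / 120 : ℝ) * u ^ 1 * t ^ 2 * (1 - t) ^ 2 +
      (327959 / 40 : ℝ) * u ^ 1 * t ^ 3 * (1 - t) ^ 1 +
      (206687 / 120 : ℝ) * u ^ 1 * t ^ 4 +
      (12791 / 20 : ℝ) * u ^ 2 * (1 - t) ^ 4 +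
      (95641 / 40 : ℝ) * u ^ 2 * t ^ 1 * (1 - t) ^ 3 +
      (397981 / 120 : ℝ) * u ^ 2 * t ^ 2 * (1 - t) ^ 2 +
      (242177 / 120 : ℝ) * u ^ 2 * t ^ 3 * (1 - t) ^ 1 +
      (54373 / 120 : ℝ) * u ^ 2 * t ^ 4 +
      (857 / 15 : ℝ) * u ^ 3 * (1 - t) ^ 4 +
      (4347 / 20 : ℝ) * u ^ 3 * t ^ 1 * (1 - t) ^ 3 +
      (4619 / 15 : ℝ) * u ^ 3 * t ^ 2 * (1 - t) ^ 2 +
      (3847 / 20 : ℝ) * u ^ 3 * t ^ 3 * (1 - t) ^ 1 +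
      (1339 / 30 : ℝ) * u ^ 3 * t ^ 4 +
      (53 / 30 : ℝ) * u ^ 4 * (1 - t) ^ 4 +
      (34 / 5 : ℝ) * u ^ 4 * t ^ 1 * (1 - t) ^ 3 +
      (293 / 30 : ℝ) * u ^ 4 * t ^ 2 * (1 - t) ^ 2 +
      (31 / 5 : ℝ) * u ^ 4 * t ^ 3 * (1 - t) ^ 1 +
      (22 / 15 : ℝ) * u ^ 4 * t ^ 4 := by
    positivity
  unfold FQ
  rw [← sub_nonneg]
  refine h3.trans (le_of_eq ?_)
  ring

end Pool.Agent.HSixP1
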