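import Mathlib

/-!
# The step ratio
-/

set_option autoImplicit false

namespace Pool.Agent.HSixP1

/-- The polynomial form of `r_J ≤ ρ`, `J = j`, `m = k - J`. -/
def SQ (ρ j m s : ℝ) : Prop :=
  (m + 1) * (s * (2 * j + m + 2) + 2 * j) ≤ ρ * (2 * j + m + 2) * (2 * m - 3 / 2 + (2 * j + 1) * s)

theorem SQ_convex {ρ j m a b s : ℝ} (ha : SQ ρ j m a) (hb : SQ ρ j m b) (h1 : a ≤ s) (h2 : s ≤ b) :
    SQ ρ j m s := by
  unfold SQ at *
  rcases (h1.trans h2).eq_or_lt with h | h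
  · have : s = a := by linarith
    rw [this]; exact ha
  · have hab : 0 < b - a := by linarith
    have k1 := mul_le_mul_of_nonneg_left ha (show 0 ≤ b - s by linarith)
    have k2 := mul_le_mul_of_nonneg_left hb (show 0 ≤ s - a by linarith)
    have k3 : (b - a) * ((m + 1) * (s * (2 * j + m + 2) + 2 * j)) ≤
        (b - a) * (ρ * (2 * j + m + 2) * (2 * m - 3 / 2 + (2 * j + 1) * s)) := by
      nlinarith [k1, k2]
    exact le_of_mul_le_mul_left k3 hab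

theorem SQ_a {j m : ℝ} (hj : 3 ≤ j) (hm : 0 ≤ m) (hk : 8 ≤ j + m) : SQ (8 / 15) j m (1 / 4) := by
  unfold SQ
  nlinarith [mul_nonneg (sub_nonneg.2 hj) hm, mul_nonneg (sub_nonneg.2 hj) (sub_nonneg.2 hk),
    mul_nonneg hm (sub_nonneg.2 hk), sq_nonneg (j - m), sq_nonneg (j - 3 * m), sq_nonneg (j - 6),
    sq_nonneg (m - 2), sq_nonneg (j - 2 * m - 2), sq_nonneg (j - 3 * m)]

theorem SQ_b {j m : ℝ} (hj : 3 ≤ j) (hm : 0 ≤ m) (hk : 8 ≤ j + m) : SQ (8 / 15) j m (3 / 10) := by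
  unfold SQ
  nlinarith [mul_nonneg (sub_nonneg.2 hj) hm, mul_nonneg (sub_nonneg.2 hj) (sub_nonneg.2 hk),
    mul_nonneg hm (sub_nonneg.2 hk), sq_nonneg (j - m), sq_nonneg (j - 3 * m), sq_nonneg (j - 6),
    sq_nonneg (m - 2), sq_nonneg (j - 2 * m - 2), sq_nonneg (j - 3 * m)]

theorem SQ_c {j m : ℝ} (hj : 3 ≤ j) (hm : 0 ≤ m) (hk : 8 ≤ j + m) : SQ (3 / 5) j m (1 / 5) := by
  unfold SQ
  nlinarith [mul_nonneg (sub_nonneg.2 hj) hm, mul_nonneg (sub_nonneg.2 hj) (sub_nonneg.2 hk),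
    mul_nonneg hm (sub_nonneg.2 hk), sq_nonneg (j - m), sq_nonneg (j - 3 * m), sq_nonneg (j - 6),
    sq_nonneg (m - 2), sq_nonneg (j - 2 * m - 2), sq_nonneg (j - 5 * m), sq_nonneg (j - m - 6)]

theorem SQ_d {j m : ℝ} (hj : 3 ≤ j) (hm : 0 ≤ m) (hk : 8 ≤ j + m) : SQ (3 / 5) j m (1 / 4) := by
  unfold SQ
  nlinarith [mul_nonneg (sub_nonneg.2 hj) hm, mul_nonneg (sub_nonneg.2 hj) (sub_nonneg.2 hk),
    mul_nonneg hm (sub_nonneg.2 hk), sq_nonneg (j - m), sq_nonneg (j - 3 * m), sq_nonneg (j - 6),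
    sq_nonneg (m - 2), sq_nonneg (j - 2 * m - 2), sq_nonneg (j - 3 * m)]

theorem SQ_e {j m : ℝ} (hj : 3 ≤ j) (hm : 2 ≤ m) (hk : 8 ≤ j + m) : SQ (7 / 10) j m (1 / 10) := by
  unfold SQ
  nlinarith [mul_nonneg (sub_nonneg.2 hj) (sub_nonneg.2 hm),
    mul_nonneg (sub_nonneg.2 hj) (sub_nonneg.2 hk),
    mul_nonneg (sub_nonneg.2 hm) (sub_nonneg.2 hk), sq_nonneg (j - m), sq_nonneg (j - 3 * m),
    sq_nonneg (j - 6), sq_nonneg (m - 2), sq_nonneg (j - 2 * m - 2), sq_nonneg (j - 5 * m)]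

theorem SQ_f {j m : ℝ} (hj : 3 ≤ j) (hm : 2 ≤ m) (hk : 8 ≤ j + m) : SQ (7 / 10) j m (1 / 5) := by
  unfold SQ
  nlinarith [mul_nonneg (sub_nonneg.2 hj) (sub_nonneg.2 hm),
    mul_nonneg (sub_nonneg.2 hj) (sub_nonneg.2 hk),
    mul_nonneg (sub_nonneg.2 hm) (sub_nonneg.2 hk), sq_nonneg (j - m), sq_nonneg (j - 3 * m),
    sq_nonneg (j - 6), sq_nonneg (m - 2), sq_nonneg (j - 2 * m - 2), sq_nonneg (j - 5 * m)]

theorem SQ_g {j : ℝ} (hj : 7 ≤ j) : SQ (19 / 20) j 1 (1 / 10) := by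
  unfold SQ
  nlinarith [mul_nonneg (sub_nonneg.2 hj) (sub_nonneg.2 hj)]

theorem SQ_h {j : ℝ} (hj : 7 ≤ j) : SQ (19 / 20) j 1 (1 / 5) := by
  unfold SQ
  nlinarith [mul_nonneg (sub_nonneg.2 hj) (sub_nonneg.2 hj)]

/-- Geometric majorant with variable ratios. -/
theorem sum_le_W {k : ℕ} (hk : 1 ≤ k) {G r W : ℕ → ℝ} (hG : ∀ j, 0 ≤ G j) (hW0 : ∀ j, 0 ≤ W j)
    (hstep : ∀ j, j + 1 < k → G (j + 1) ≤ r j * G j)
    (hW : ∀ j, j + 1 < k → 1 + r j * W (j + 1) ≤ W j) (hWk : 1 ≤ W (k - 1)) :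
    ∑ j ∈ Finset.range k, G j ≤ G 0 * W 0 := by
  have key : ∀ m, m < k → ∑ i ∈ Finset.range m, G i + G m * W m ≤ G 0 * W 0 := by
    intro m
    induction m with
    | zero => intro _; simp
    | succ m ih =>
      intro hm
      have h1 := ih (by omega)
      have h2 := mul_le_mul_of_nonneg_right (hstep m hm) (hW0 (m + 1))
      have h3 := mul_le_mul_of_nonneg_left (hW m hm) (hG m)
      rw [Finset.sum_range_succ]
      linarith [show G m * (1 + r m * W (m + 1)) = G m + r m * G m * W (m + 1) by ring]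
  obtain ⟨m, rfl⟩ : ∃ m, k = m + 1 := ⟨k - 1, by omega⟩
  have h1 := key m (by omega)
  rw [Finset.sum_range_succ]
  have h2 := mul_le_mul_of_nonneg_left hWk (hG m)
  rw [Nat.add_sub_cancel] at h2
  linarith

end Pool.Agent.HSixP1
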