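import Pool.Agent.HStar.Chain
import Pool.Agent.HSixP1.T1
import Pool.Agent.HSixP1.Step
import Pool.Agent.HSixP1.FinIneq

/-!
# `7/10 ≤ x ≤ 9/10`, all `k ≥ 8`
-/

set_option autoImplicit false

namespace Pool.Agent.HSixP1

open Set Polynomial Pool.Agent.HStar

/-- `D_j = 2(k-j) - 3/2 + (2j+1)s`. -/
noncomputable def DDk (k : ℕ) (s : ℝ) (j : ℕ) : ℝ := 2 * ((k:ℝ) - j) - 3 / 2 + (2 * j + 1) * s

theorem Dp_eq (k : ℕ) (s : ℝ) (j : ℕ) : Dp ((k:ℝ) + 1 / 4) (1 - s) j = DDk k s j := by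
  unfold Dp DDk
  ring

theorem DDk_le_Dm {k j : ℕ} {s : ℝ} (h0 : 0 ≤ s) (h1 : s ≤ 3 / 10) (hj : 2 ≤ j) :
    DDk k s j ≤ Dm ((k:ℝ) - 2) (1 - s) j := by
  refine le_trans ?_ (Dm_ge _ (by linarith) (by linarith) j)
  have hj' : (2:ℝ) ≤ j := by exact_mod_cast hj
  unfold DDk
  nlinarith [mul_nonneg (sub_nonneg.2 hj') (sub_nonneg.2 h1)]

theorem yw_one {y w : ℝ} (hy1 : y ≤ 23 / 10) (hy0 : 0 ≤ y) (hw0 : 0 ≤ w) (hw : 9 * w ≤ 1) :
    2 * y ^ 2 * w + (1 - y * w) ^ 2 / 2 ≤ 3 / 2 := by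
  have z0 : 0 ≤ y * w := mul_nonneg hy0 hw0
  have z1 : y * w ≤ 23 / 10 * (1 / 9) := mul_le_mul hy1 (by linarith) hw0 (by norm_num)
  have z2 : (y * w) * (2 * y - 1) ≤ (y * w) * (18 / 5) :=
    mul_le_mul_of_nonneg_left (by linarith) z0
  have z3 : (y * w) ^ 2 ≤ (23 / 10 * (1 / 9)) ^ 2 := pow_le_pow_left₀ z0 z1 2
  have e : 2 * y ^ 2 * w + (1 - y * w) ^ 2 / 2 = (y * w) * (2 * y - 1) + 1 / 2 + (y * w) ^ 2 / 2 := by
    ring
  rw [e]
  norm_num at z1 z3 ⊢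
  linarith

theorem yw_two {y w : ℝ} (hy1 : y ≤ 33 / 20) (hy0 : 0 ≤ y) (hw0 : 0 ≤ w) (hw : 9 * w ≤ 1) :
    2 * y ^ 2 * w + 2 * (y * w) + (1 - y * w) ^ 2 / 2 ≤ 3 / 2 := by
  have z0 : 0 ≤ y * w := mul_nonneg hy0 hw0
  have z1 : y * w ≤ 33 / 20 * (1 / 9) := mul_le_mul hy1 (by linarith) hw0 (by norm_num)
  have z2 : (y * w) * (2 * y + 1) ≤ (y * w) * (43 / 10) :=
    mul_le_mul_of_nonneg_left (by linarith) z0
  have z3 : (y * w) ^ 2 ≤ (33 / 20 * (1 / 9)) ^ 2 := pow_le_pow_left₀ z0 z1 2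
  have e : 2 * y ^ 2 * w + 2 * (y * w) + (1 - y * w) ^ 2 / 2 =
      (y * w) * (2 * y + 1) + 1 / 2 + (y * w) ^ 2 / 2 := by ring
  rw [e]
  norm_num at z1 z3 ⊢
  linarith

/-- The condition on `E` at the first end. -/
theorem FE_one {N k : ℕ} (hk : 8 ≤ k) (hkN : k + 1 ≤ N) {s : ℝ} (h0 : 1 / 10 ≤ s)
    (h1 : s ≤ 3 / 10) :
    2 * ((k:ℝ) - 3 / 4 + s) ≤ FE N (1 - s) ((((k:ℝ) - 2) + (1 - s)) / N - 1) := by
  have hk' : (8:ℝ) ≤ k := by exact_mod_cast hk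
  have hN' : (k:ℝ) + 1 ≤ N := by exact_mod_cast hkN
  have hNpos : (0:ℝ) < N := by linarith
  obtain ⟨y, hy⟩ : ∃ y, y = 2 + s := ⟨_, rfl⟩
  obtain ⟨u, hu⟩ : ∃ u : ℝ, u = 1 / N := ⟨_, rfl⟩
  obtain ⟨w, hw⟩ : ∃ w : ℝ, w = 1 / ((k:ℝ) + 1) := ⟨_, rfl⟩
  have hNu : (N:ℝ) * u = 1 := by rw [hu]; field_simp
  have hkw : ((k:ℝ) + 1) * w = 1 := by rw [hw]; field_simp
  have hu0 : 0 < u := by rw [hu]; positivity
  have hw0 : 0 < w := by rw [hw]; positivity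
  have huw : u ≤ w := by
    rw [hu, hw]; exact one_div_le_one_div_of_le (by linarith) hN'
  have hw9 : 9 * w ≤ 1 := by rw [← hkw]; nlinarith
  obtain ⟨a, ha⟩ : ∃ a : ℝ, a = (k:ℝ) - 2 + (1 - s) := ⟨_, rfl⟩
  have e1 : ((k:ℝ) - 2 + (1 - s)) / N = a * u := by rw [hu, ha]; ring
  rw [e1]
  have hay : a = (k + 1) - y := by rw [ha, hy]; ring
  have ha0 : 0 ≤ a := by rw [ha]; linarith
  have hv0 : a * w = 1 - y * w := by rw [hay, sub_mul, hkw]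
  have hyw : 0 ≤ y * w := by rw [hy]; have : 0 ≤ 2 + s := by linarith
                             positivity
  have hau : a * u ≤ a * w := mul_le_mul_of_nonneg_left huw ha0
  have hau0 : 0 ≤ a * u := mul_nonneg ha0 hu0.le
  have hau1 : a * u ≤ 1 := by linarith
  unfold FE
  have h2 : |2 * (1 - s) + (a * u - 1)| = 2 * (1 - s) + (a * u - 1) :=
    abs_of_nonneg (by linarith)
  rw [h2]
  have e3 : 2 * (N:ℝ) * (1 - (a * u - 1) ^ 2) = 4 * a - 2 * a * (a * u) := by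
    calc 2 * (N:ℝ) * (1 - (a * u - 1) ^ 2) = (N * u) * (4 * a - 2 * a * (a * u)) := by ring
      _ = _ := by rw [hNu, one_mul]
  rw [e3]
  have h3 : 2 * a * (a * u) ≤ 2 * (a - y + y ^ 2 * w) := by
    have h4 := mul_le_mul_of_nonneg_left hau (show 0 ≤ 2 * a by linarith)
    have h5 : 2 * a * (a * w) = 2 * (a - y + y ^ 2 * w) := by
      have : a * (a * w) = a - y + y ^ 2 * w := by
        calc a * (a * w) = a * (1 - y * w) := by rw [hv0]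
          _ = a - y * (a * w) := by ring
          _ = a - y * (1 - y * w) := by rw [hv0]
          _ = _ := by ring
      linarith
    linarith
  have h4 : (a * u) ^ 2 ≤ (1 - y * w) ^ 2 := by
    rw [← hv0]
    exact pow_le_pow_left₀ hau0 hau 2
  have h6 := yw_one (y := y) (w := w) (by rw [hy]; linarith) (by rw [hy]; linarith) hw0.le hw9
  have hya : 2 * a + 2 * y = 2 * k + 2 := by rw [hay]; ring
  have e4 : (a * u - 1) ^ 2 = (a * u) ^ 2 - 2 * (a * u) + 1 := by ring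
  rw [e4]
  have e5 : 2 * a * (a * u) = 2 * a * (a * u) := rfl
  linarith

/-- The condition on `E` at the second end. -/
theorem FE_two {N k : ℕ} (hk : 8 ≤ k) (hkN : k + 1 ≤ N) {s : ℝ} (h0 : 1 / 10 ≤ s)
    (h1 : s ≤ 3 / 10) :
    2 * ((k:ℝ) - 3 / 4 + s) ≤ FE N (1 - s) (1 - (((k:ℝ) + 1 / 4) - (1 - s)) / N) := by
  have hk' : (8:ℝ) ≤ k := by exact_mod_cast hk
  have hN' : (k:ℝ) + 1 ≤ N := by exact_mod_cast hkN
  have hNpos : (0:ℝ) < N := by linarith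
  obtain ⟨y, hy⟩ : ∃ y, y = 7 / 4 - s := ⟨_, rfl⟩
  obtain ⟨u, hu⟩ : ∃ u : ℝ, u = 1 / N := ⟨_, rfl⟩
  obtain ⟨w, hw⟩ : ∃ w : ℝ, w = 1 / ((k:ℝ) + 1) := ⟨_, rfl⟩
  have hNu : (N:ℝ) * u = 1 := by rw [hu]; field_simp
  have hkw : ((k:ℝ) + 1) * w = 1 := by rw [hw]; field_simp
  have hu0 : 0 < u := by rw [hu]; positivity
  have hw0 : 0 < w := by rw [hw]; positivity
  have huw : u ≤ w := by
    rw [hu, hw]; exact one_div_le_one_div_of_le (by linarith) hN'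
  have hw9 : 9 * w ≤ 1 := by rw [← hkw]; nlinarith
  obtain ⟨b, hb⟩ : ∃ b : ℝ, b = (k:ℝ) + 1 / 4 - (1 - s) := ⟨_, rfl⟩
  have e1 : ((k:ℝ) + 1 / 4 - (1 - s)) / N = b * u := by rw [hu, hb]; ring
  rw [e1]
  have hby : b = (k + 1) - y := by rw [hb, hy]; ring
  have hb0 : 2 ≤ b := by rw [hb]; linarith
  have hv0 : b * w = 1 - y * w := by rw [hby, sub_mul, hkw]
  have hy0 : 0 ≤ y := by rw [hy]; linarith
  have hyw : 0 ≤ y * w := by positivity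
  have hbu : b * u ≤ b * w := mul_le_mul_of_nonneg_left huw (by linarith)
  have hbu0 : 0 ≤ b * u := mul_nonneg (by linarith) hu0.le
  unfold FE
  have h2 : |2 * (1 - s) + (1 - b * u)| = 2 * (1 - s) + (1 - b * u) :=
    abs_of_nonneg (by linarith)
  rw [h2]
  have e3 : 2 * (N:ℝ) * (1 - (1 - b * u) ^ 2) = 4 * b - 2 * b * (b * u) := by
    calc 2 * (N:ℝ) * (1 - (1 - b * u) ^ 2) = (N * u) * (4 * b - 2 * b * (b * u)) := by ring
      _ = _ := by rw [hNu, one_mul]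
  rw [e3]
  have h3 : (2 * b - 2) * (b * u) ≤ 2 * (b - y + y ^ 2 * w) - 2 * (1 - y * w) := by
    have h4 := mul_le_mul_of_nonneg_left hbu (show 0 ≤ 2 * b - 2 by linarith)
    have h5 : (2 * b - 2) * (b * w) = 2 * (b - y + y ^ 2 * w) - 2 * (1 - y * w) := by
      have : b * (b * w) = b - y + y ^ 2 * w := by
        calc b * (b * w) = b * (1 - y * w) := by rw [hv0]
          _ = b - y * (b * w) := by ring
          _ = b - y * (1 - y * w) := by rw [hv0]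
          _ = _ := by ring
      calc (2 * b - 2) * (b * w) = 2 * (b * (b * w)) - 2 * (b * w) := by ring
        _ = _ := by rw [this, hv0]
    linarith
  have h4 : (b * u) ^ 2 ≤ (1 - y * w) ^ 2 := by
    rw [← hv0]
    exact pow_le_pow_left₀ hbu0 hbu 2
  have h6 := yw_two (y := y) (w := w) (by rw [hy]; linarith) hy0 hw0.le hw9
  have hyb : 2 * b + 2 * y = 2 * k + 2 := by rw [hby]; ring
  have e4 : (1 - b * u) ^ 2 = 1 - 2 * (b * u) + (b * u) ^ 2 := by ring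
  have e6 : (2 * b - 2) * (b * u) = 2 * b * (b * u) - 2 * (b * u) := by ring
  rw [e6] at h3
  rw [e4]
  linarith

/-- The two terms of the chain. -/
noncomputable def bb1 (k : ℕ) (s : ℝ) (j : ℕ) : ℝ := (k.choose j : ℕ) * tt (k + 2) s j

theorem bb1_nonneg (k : ℕ) {s : ℝ} (hs : 0 ≤ s) (j : ℕ) : 0 ≤ bb1 k s j := by
  unfold bb1
  have := tt_nonneg (k + 2) hs j
  positivity

theorem bb1_one (k : ℕ) (s : ℝ) : bb1 k s 1 = k * (s + 2 / (k + 3)) := by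
  unfold bb1
  have h := tt_succ (k + 2) s 0
  rw [tt_zero] at h
  push_cast at h
  have h3 : (0:ℝ) < (k:ℝ) + 3 := by positivity
  have h4 : tt (k + 2) s 1 = s + 2 / (k + 3) := by
    rw [eq_comm, ← sub_eq_zero]
    have : ((k:ℝ) + 3) * (s + 2 / (k + 3) - tt (k + 2) s 1) = 0 := by
      have e : ((k:ℝ) + 3) * (2 / (k + 3)) = 2 := by field_simp
      have e2 : ((k:ℝ) + 2 + 0 + 1) * tt (k + 2) s (0 + 1) = (k + 3) * tt (k + 2) s 1 := by
        norm_num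
        left
        ring
      rw [e2] at h
      rw [mul_sub, mul_add, e, h]
      ring
    exact (mul_eq_zero.1 this).resolve_left h3.ne'
  rw [h4, Nat.choose_one_right]

/-- A step: `b_{j+2}/(k-j-1) · (j+2) ≤ τ b_{j+1}`. -/
theorem bb1_succ {k j : ℕ} {s : ℝ} (hs : 0 ≤ s) (hj : j + 2 ≤ k) :
    ((j:ℝ) + 2) * bb1 k s (j + 2) ≤
      ((k:ℝ) - j - 1) * (s + 2 * (j + 2) / (k + j + 4)) * bb1 k s (j + 1) := by
  unfold bb1
  have h1 := tt_step (k + 2) hs (j + 1)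
  have h2 : ((k.choose (j + 2) : ℕ) : ℝ) * (j + 2) = (k.choose (j + 1) : ℕ) * ((k:ℝ) - j - 1) := by
    have h := Nat.choose_succ_right_eq k (j + 1)
    have h' : ((k.choose (j + 1 + 1) * (j + 1 + 1) : ℕ) : ℝ) =
        ((k.choose (j + 1) * (k - (j + 1)) : ℕ) : ℝ) := by rw [h]
    rw [Nat.cast_mul, Nat.cast_mul, Nat.cast_sub (by omega)] at h'
    push_cast at h'
    linarith
  have e1 : (((k + 2 : ℕ) : ℝ) + ((j + 1 : ℕ) : ℝ) + 1) = k + j + 4 := by push_cast; ring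
  have e2 : (((j + 1 : ℕ) : ℝ) + 1) = j + 2 := by push_cast; ring
  rw [e1, e2] at h1
  have h3 : (0:ℝ) ≤ (k:ℝ) - j - 1 := by
    have : ((j + 2 : ℕ) : ℝ) ≤ k := by exact_mod_cast hj
    push_cast at this
    linarith
  have h4 : (0:ℝ) ≤ (k.choose (j + 1) : ℕ) * ((k:ℝ) - j - 1) := by positivity
  have h5 := mul_le_mul_of_nonneg_left h1 h4
  calc ((j:ℝ) + 2) * ((k.choose (j + 2) : ℕ) * tt (k + 2) s (j + 2))
      = ((k.choose (j + 2) : ℕ) * ((j:ℝ) + 2)) * tt (k + 2) s (j + 2) := by ring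
    _ = ((k.choose (j + 1) : ℕ) * ((k:ℝ) - j - 1)) * tt (k + 2) s (j + 1 + 1) := by rw [h2]
    _ ≤ _ := h5
    _ = _ := by ring

/-- THE CORE. -/
theorem core {N k : ℕ} (hk : 8 ≤ k) (hkN : k + 1 ≤ N) {L : Fin N → ℂ} (hL : ∀ a, ‖L a‖ ≤ 1)
    {s : ℝ} (h0 : 1 / 10 ≤ s) (h1 : s ≤ 3 / 10) (htp : (k:ℝ) + 1 / 4 ≤ ∑ a, (1 - (L a).re))
    (htm : (k:ℝ) - 2 ≤ ∑ a, (1 + (L a).re)) {ρ r W : ℕ → ℝ} (hρ0 : ∀ j, 0 ≤ ρ j)
    (hρ : ∀ j, 2 ≤ j → j ≤ k → (j:ℝ) ≤ ρ j * DDk k s j ∨ 1 ≤ ρ j * s) (hW0 : ∀ j, 0 ≤ W j)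
    (hstep : ∀ j, j + 1 < k → bb1 k s (j + 2) * ρ (j + 2) ≤ r j * bb1 k s (j + 1))
    (hW : ∀ j, j + 1 < k → 1 + r j * W (j + 1) ≤ W j) (hWk : 1 ≤ W (k - 1))
    (hfin : k * (s + 2 / (k + 3)) * W 0 ≤ (k:ℝ) - 3 / 4 + s) : PW L k (1 - s) := by
  have hs0 : 0 ≤ s := by linarith
  have hx0 : 0 ≤ 1 - s := by linarith
  have hx1 : 1 - s < 1 := by linarith
  refine pw_prod (by omega) hL hx0 hx1 (tp := (k:ℝ) + 1 / 4) (tm := (k:ℝ) - 2)
    (E := (k:ℝ) - 3 / 4 + s) htp htm (b := bb1 k s) (ρ := ρ) ?_ (fun j => bb1_nonneg k hs0 j) hρ0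
    (FE_one hk hkN h0 h1) (FE_two hk hkN h0 h1) ?_ ?_
  · intro M hM j _ hjk
    have h2 := T1 hL (by omega) (show -1 ≤ 1 - s by linarith) hx1.le hM hjk
    have e1 : 1 - (1 - s) = s := by ring
    rw [e1] at h2
    have hM0 : 0 ≤ M := (abs_nonneg _).trans (hM (1 - s) ⟨by linarith, hx1.le⟩)
    refine h2.trans (mul_le_mul_of_nonneg_right ?_ hM0)
    unfold bb1
    exact mul_le_mul_of_nonneg_left (tt_anti (by omega) hs0 j) (by positivity)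
  · intro j hj hjk
    have e1 : 1 - (1 - s) = s := by ring
    rw [e1]
    rcases hρ j hj hjk with h | h
    · left
      rw [Dp_eq]
      refine ⟨h, h.trans (mul_le_mul_of_nonneg_left (DDk_le_Dm hs0 h1 hj) (hρ0 j))⟩
    · right
      exact h
  · have hG : ∀ j, 0 ≤ bb1 k s (j + 1) * ∏ i ∈ Finset.range j, ρ (i + 2) := fun j =>
      mul_nonneg (bb1_nonneg k hs0 _) (Finset.prod_nonneg fun i _ => hρ0 _)
    have h := sum_le_W (k := k) (by omega)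
      (G := fun j => bb1 k s (j + 1) * ∏ i ∈ Finset.range j, ρ (i + 2)) (r := r) (W := W) hG hW0
      (by
        intro j hj
        have h3 := hstep j hj
        have h4 : 0 ≤ ∏ i ∈ Finset.range j, ρ (i + 2) := Finset.prod_nonneg fun i _ => hρ0 _
        have h5 := mul_le_mul_of_nonneg_right h3 h4
        rw [Finset.prod_range_succ]
        calc bb1 k s (j + 1 + 1) * ((∏ i ∈ Finset.range j, ρ (i + 2)) * ρ (j + 2))
            = bb1 k s (j + 2) * ρ (j + 2) * ∏ i ∈ Finset.range j, ρ (i + 2) := by ring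
          _ ≤ _ := h5
          _ = _ := by ring) hW hWk
    refine h.trans ?_
    simp only [Finset.range_zero, Finset.prod_empty, mul_one]
    rw [bb1_one]
    exact hfin

end Pool.Agent.HSixP1
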